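import Pool.Agent.Helper83.EIN2.Goals

/-!
# MP_06d934_gt, project EIN2: the zeros of the chart `ML` at `t = 0`
-/

set_option autoImplicit false

namespace Pool.Agent.Helper22.EIN2

open Pool.Agent.Helper83.EIN2

/-- The chart `ML` at `t = 0`. -/
theorem FML0 (a β : ℝ) (p : Fin 12 → ℝ) : FML a β 0 p =
    ![(1 - β) * p 1 + β * p 0 - ((1 - β) * p 2 - p 0),
      (1 - β) * p 1 + β * p 0 - (β * p 2 - p 1),
      a * (p 0 + p 1) + p 0 * p 1 - ((1 - a) * p 7 + (1 - a) * p 9 + a * p 2 - (1 - a) * p 3),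
      (1 - β) * p 5 + β * p 4 - (β * p 3 + p 5),
      (1 - β) * p 5 + β * p 4 - (β * p 4 - (1 + β) * p 5),
      (1 - β) * p 5 + β * p 4 - (p 4 - (1 + β) * p 3),
      (1 - β) * p 1 + (1 - β) * p 5 + β * p 6 - (1 - β) * p 11 - (β * p 8 + β * p 7),
      (1 - β) * p 1 + (1 - β) * p 5 + β * p 6 - (1 - β) * p 11 - (β * p 6 - 2 * β * p 8),
      (1 - β) * p 1 + (1 - β) * p 5 + β * p 6 - (1 - β) * p 11 - (β * p 6 - 2 * β * p 7),
      -(β * p 6) + (1 - β) * p 11 + β * p 0 + β * p 4 - (2 * β * p 9 + (1 - β) * p 11),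
      -(β * p 6) + (1 - β) * p 11 + β * p 0 + β * p 4 - ((1 - β) * p 10 - (1 + β) * p 9),
      -(β * p 6) + (1 - β) * p 11 + β * p 0 + β * p 4 - (2 * β * p 10 - (1 + β) * p 11)] := by
  ext i
  fin_cases i <;> simp [FML, lenML] <;> (left; ring)

/-- The linear components of the chart `ML` at `t = 0`. -/
structure Lin (β : ℝ) (p : Fin 12 → ℝ) : Prop where
  c0 : (1 - β) * p 1 + β * p 0 - ((1 - β) * p 2 - p 0) = 0
  c1 : (1 - β) * p 1 + β * p 0 - (β * p 2 - p 1) = 0
  c3 : (1 - β) * p 5 + β * p 4 - (β * p 3 + p 5) = 0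
  c4 : (1 - β) * p 5 + β * p 4 - (β * p 4 - (1 + β) * p 5) = 0
  c5 : (1 - β) * p 5 + β * p 4 - (p 4 - (1 + β) * p 3) = 0
  c6 : (1 - β) * p 1 + (1 - β) * p 5 + β * p 6 - (1 - β) * p 11 - (β * p 8 + β * p 7) = 0
  c7 : (1 - β) * p 1 + (1 - β) * p 5 + β * p 6 - (1 - β) * p 11 - (β * p 6 - 2 * β * p 8) = 0
  c8 : (1 - β) * p 1 + (1 - β) * p 5 + β * p 6 - (1 - β) * p 11 - (β * p 6 - 2 * β * p 7) = 0
  c9 : -(β * p 6) + (1 - β) * p 11 + β * p 0 + β * p 4 - (2 * β * p 9 + (1 - β) * p 11) = 0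
  c10 : -(β * p 6) + (1 - β) * p 11 + β * p 0 + β * p 4 - ((1 - β) * p 10 - (1 + β) * p 9) = 0
  c11 : -(β * p 6) + (1 - β) * p 11 + β * p 0 + β * p 4 - (2 * β * p 10 - (1 + β) * p 11) = 0

theorem lin_zML {β : ℝ} (hb : 0 < β) (hb1 : β < 1) (e : ℝ) : Lin β (zML β e) := by
  have h0 : β ≠ 0 := hb.ne'
  have h1 : 1 - β ≠ 0 := by linarith
  have h2 : 1 + 3 * β ≠ 0 := by positivity
  constructor <;> simp [zML] <;> field_simp <;> ring

theorem eq_zML {β : ℝ} (hb : 0 < β) (hb1 : β < 1) {p : Fin 12 → ℝ} (h : Lin β p) :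
    p = zML β ((1 - β) * p 1 + β * p 0) := by
  have h0 : β ≠ 0 := hb.ne'
  have h1 : 1 - β ≠ 0 := by linarith
  have h2 : 1 + 3 * β ≠ 0 := by positivity
  obtain ⟨c0, c1, c3, c4, c5, c6, c7, c8, c9, c10, c11⟩ := h
  obtain ⟨e, he⟩ : ∃ e, e = (1 - β) * p 1 + β * p 0 := ⟨_, rfl⟩
  rw [← he]
  have p5 : p 5 = 0 := by linear_combination c4 / 2
  have p43 : p 4 = p 3 := mul_left_cancel₀ h0 (by linear_combination c3 + β * p5)
  have p3 : p 3 = 0 := mul_left_cancel₀ h0 (by rw [p43, p5] at c5; linear_combination c5 / 2)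
  have p4 : p 4 = 0 := p43.trans p3
  have p2 : p 2 = e / (β * (1 - β)) := by
    rw [eq_div_iff (mul_ne_zero h0 h1)]
    linear_combination (-(1 : ℝ) / 2) * (β * c0 + (1 - β) * c1) - he
  have p0 : p 0 = e * (1 - β) / β := by
    have := c0
    rw [← he, p2] at this
    field_simp at this ⊢
    linear_combination this
  have p1 : p 1 = e * β / (1 - β) := by
    have := c1
    rw [← he, p2] at this
    field_simp at this ⊢
    linear_combination this
  have p87 : p 8 = p 7 := mul_left_cancel₀ h0 (by linear_combination (c7 - c8) / 2)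
  have p6 : p 6 = 4 * p 7 := mul_left_cancel₀ h0 (by
    rw [p87] at c6
    linear_combination c6 - c8)
  have p9 : p 9 = p 0 / 2 - 2 * p 7 := mul_left_cancel₀ h0 (by
    rw [p6, p4] at c9
    linear_combination (-(1 : ℝ) / 2) * c9)
  have p11 : (1 - β) * p 11 = e * β + 2 * β * p 7 := by
    rw [p5, p6] at c8
    have : (1 - β) * p 1 = e * β := by rw [p1]; field_simp
    linear_combination this - c8
  have p10 : (1 - β) * p 10 = e - 2 * β * p 7 + (1 + β) * p 9 := by
    have : β * p 0 = e * (1 - β) := by rw [p0]; field_simp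
    rw [p6, p4] at c10
    linear_combination (-1 : ℝ) * c10 + this + p11
  have p7 : p 7 = e * (1 - β) / (2 * (1 + 3 * β)) := by
    rw [eq_div_iff (mul_ne_zero two_ne_zero h2)]
    refine mul_left_cancel₀ h0 ?_
    have : β * p 0 = e * (1 - β) := by rw [p0]; field_simp
    rw [p6, p4] at c11
    linear_combination (1 / 2 : ℝ) * ((1 - β) * c11 - 2 * p11 - (1 - β) * this + 2 * β * p10 +
      2 * β * (1 + β) * p9 + (1 + β) * this)
  have p9' : p 9 = e * (1 - β) / (2 * β) - 2 * (e * (1 - β) / (2 * (1 + 3 * β))) := by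
    rw [p9, p7, p0]
    ring
  ext i
  fin_cases i <;> simp [zML]
  · exact p0
  · exact p1
  · exact p2
  · exact p3
  · exact p4
  · exact p5
  · rw [p6, p7]
  · exact p7
  · rw [p87, p7]
  · exact p9'
  · rw [eq_div_iff h1, ← p9', ← p7]
    linear_combination p10
  · rw [← p7, ← add_div, eq_div_iff h1]
    linear_combination p11

/-- The component 2 at `zML β e`. -/
theorem comp2 {a β : ℝ} (hb : 0 < β) (hb1 : β < 1) (e : ℝ) :
    a * (zML β e 0 + zML β e 1) + zML β e 0 * zML β e 1 -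
      ((1 - a) * zML β e 7 + (1 - a) * zML β e 9 + a * zML β e 2 - (1 - a) * zML β e 3) =
      e * (e - eML a β) := by
  have h0 : β ≠ 0 := hb.ne'
  have h1 : 1 - β ≠ 0 := by linarith
  have h2 : 1 + 3 * β ≠ 0 := by positivity
  simp [zML, eML]
  field_simp
  ring

theorem zML_e {β : ℝ} (hb : 0 < β) (hb1 : β < 1) (e : ℝ) :
    (1 - β) * zML β e 1 + β * zML β e 0 = e := by
  have h0 : β ≠ 0 := hb.ne'
  have h1 : 1 - β ≠ 0 := by linarith
  simp [zML]
  field_simp
  ring

theorem lin_of {a β : ℝ} {p : Fin 12 → ℝ} (h : FML a β 0 p = 0) : Lin β p ∧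
    a * (p 0 + p 1) + p 0 * p 1 - ((1 - a) * p 7 + (1 - a) * p 9 + a * p 2 - (1 - a) * p 3) = 0 := by
  rw [FML0] at h
  exact ⟨⟨congrFun h 0, congrFun h 1, congrFun h 3, congrFun h 4, congrFun h 5, congrFun h 6,
    congrFun h 7, congrFun h 8, congrFun h 9, congrFun h 10, congrFun h 11⟩, congrFun h 2⟩

theorem of_lin {a β : ℝ} {p : Fin 12 → ℝ} (h : Lin β p)
    (h2 : a * (p 0 + p 1) + p 0 * p 1 -
      ((1 - a) * p 7 + (1 - a) * p 9 + a * p 2 - (1 - a) * p 3) = 0) : FML a β 0 p = 0 := by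
  obtain ⟨c0, c1, c3, c4, c5, c6, c7, c8, c9, c10, c11⟩ := h
  rw [FML0]
  ext i
  fin_cases i
  exacts [c0, c1, h2, c3, c4, c5, c6, c7, c8, c9, c10, c11]

theorem quad {f : ℝ → ℝ} {A B C : ℝ} (h : HasDerivAt f 0 0) (hf : ∀ s, f s = A + s * B + s ^ 2 * C) :
    B = 0 := by
  have h1 : HasDerivAt f (0 + 1 * B + (2 : ℕ) * (0 : ℝ) ^ (2 - 1) * 1 * C) 0 := by
    rw [show f = fun s ↦ A + s * B + s ^ 2 * C from funext hf]
    exact (((hasDerivAt_const _ _).add ((hasDerivAt_id _).mul_const B)).add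
      (((hasDerivAt_id _).pow 2).mul_const C))
  have h2 := h1.unique h
  simpa using h2

theorem mlz : MLZ := by
  intro a β ha ha1 hb hb1
  have h0 : β ≠ 0 := hb.ne'
  have h1 : 0 < 1 - β := by linarith
  have hE : 0 < eML a β := by
    have : 0 < 1 - a := by linarith
    unfold eML
    positivity
  refine ⟨hE, fun p ↦ ⟨fun h ↦ ?_, fun h ↦ ?_⟩, fun e he d h ↦ ?_, fun h ↦ ?_⟩
  · obtain ⟨hl, h2⟩ := lin_of h
    have hp := eq_zML hb hb1 hl
    obtain ⟨e, he⟩ : ∃ e, e = (1 - β) * p 1 + β * p 0 := ⟨_, rfl⟩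
    rw [← he] at hp
    rw [hp, comp2 hb hb1 e, mul_eq_zero] at h2
    rcases h2 with h2 | h2
    · left
      rw [hp, h2]
    · right
      rw [hp, sub_eq_zero.1 h2]
  · rcases h with rfl | rfl
    · exact of_lin (lin_zML hb hb1 _) (by rw [comp2 hb hb1, zero_mul])
    · exact of_lin (lin_zML hb hb1 _) (by rw [comp2 hb hb1, sub_self, mul_zero])
  · have hi : ∀ i, HasDerivAt (fun s : ℝ ↦ FML a β 0 (zML β e + s • d) i) 0 0 :=
      fun i ↦ (hasDerivAt_pi.1 h) i
    obtain ⟨z, hz⟩ : ∃ z, z = zML β e := ⟨_, rfl⟩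
    rw [← hz] at h hi
    have hd : Lin β d := by
      constructor
      · refine quad (A := FML a β 0 z 0) (C := 0) (hi 0) fun s ↦ ?_
        rw [FML0, FML0]
        simp
        ring
      · refine quad (A := FML a β 0 z 1) (C := 0) (hi 1) fun s ↦ ?_
        rw [FML0, FML0]
        simp
        ring
      · refine quad (A := FML a β 0 z 3) (C := 0) (hi 3) fun s ↦ ?_
        rw [FML0, FML0]
        simp
        ring
      · refine quad (A := FML a β 0 z 4) (C := 0) (hi 4) fun s ↦ ?_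
        rw [FML0, FML0]
        simp
        ring
      · refine quad (A := FML a β 0 z 5) (C := 0) (hi 5) fun s ↦ ?_
        rw [FML0, FML0]
        simp
        ring
      · refine quad (A := FML a β 0 z 6) (C := 0) (hi 6) fun s ↦ ?_
        rw [FML0, FML0]
        simp
        ring
      · refine quad (A := FML a β 0 z 7) (C := 0) (hi 7) fun s ↦ ?_
        rw [FML0, FML0]
        simp
        ring
      · refine quad (A := FML a β 0 z 8) (C := 0) (hi 8) fun s ↦ ?_
        rw [FML0, FML0]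
        simp
        ring
      · refine quad (A := FML a β 0 z 9) (C := 0) (hi 9) fun s ↦ ?_
        rw [FML0, FML0]
        simp
        ring
      · refine quad (A := FML a β 0 z 10) (C := 0) (hi 10) fun s ↦ ?_
        rw [FML0, FML0]
        simp
        ring
      · refine quad (A := FML a β 0 z 11) (C := 0) (hi 11) fun s ↦ ?_
        rw [FML0, FML0]
        simp
        ring
    have hd2 : a * (d 0 + d 1) + (z 0 * d 1 + z 1 * d 0) -
        ((1 - a) * d 7 + (1 - a) * d 9 + a * d 2 - (1 - a) * d 3) = 0 := by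
      refine quad (A := FML a β 0 z 2) (C := d 0 * d 1) (hi 2) fun s ↦ ?_
      rw [FML0, FML0]
      simp
      ring
    obtain ⟨η, hη⟩ : ∃ η, η = (1 - β) * d 1 + β * d 0 := ⟨_, rfl⟩
    have hdz := eq_zML hb hb1 hd
    rw [← hη] at hdz
    have hη0 : η = 0 := by
      have h3 : (2 * e - eML a β) * η = 0 := by
        rw [hz] at hd2
        rw [hdz] at hd2
        rw [← hd2]
        have e1 := comp2 (a := a) hb hb1 η
        have e2 : zML β e 0 * zML β η 1 + zML β e 1 * zML β η 0 = 2 * e * η := by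
          simp [zML]
          field_simp
          ring
        have e3 : zML β η 0 * zML β η 1 = η ^ 2 := by
          simp [zML]
          field_simp
        linear_combination e3 - e1 - e2
      rcases mul_eq_zero.1 h3 with h3 | h3
      · rcases he with he | he
        · rw [he] at h3
          linarith
        · rw [he] at h3
          linarith
      · exact h3
    rw [hdz, hη0]
    ext i
    fin_cases i <;> simp [zML]
  · have := zML_e hb hb1 0
    rw [h, zML_e hb hb1] at this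
    exact hE.ne' this

end Pool.Agent.Helper22.EIN2
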